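import Mathlib

/-!
# A bisymmetric operation which is reflexive exactly on a proper subinterval

On the interval `I = ℝ` put `F x y = ⌊x⌋ + ⌊y⌋ + (fract x + fract y) / 2`. The integer part of
`F x y` is `⌊x⌋ + ⌊y⌋` and its fractional part is the arithmetic mean of the fractional parts.
Hence `F` is bisymmetric, symmetric and partially strictly increasing, and `F x x = x` if and only
if `x ∈ [0, 1)`.
-/

set_option autoImplicit false

namespace Pool.Agent.Results.MP_a2bf4b_an.FloorExample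

/-- `F : I² → I` is bisymmetric. -/
def Bisymmetric {I : Set ℝ} (F : I → I → I) : Prop :=
  ∀ x y u v : I, F (F x y) (F u v) = F (F x u) (F y v)

/-- `F : I² → I` is symmetric. -/
def Symm {I : Set ℝ} (F : I → I → I) : Prop := ∀ x y : I, F x y = F y x

/-- `F : I² → I` is partially strictly increasing. -/
def PartiallyStrictlyIncreasing {I : Set ℝ} (F : I → I → I) : Prop :=
  (∀ y : I, StrictMono fun x : I => F x y) ∧ ∀ x : I, StrictMono fun y : I => F x y

/-- `F` is reflexive on the set `J`. -/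
def ReflexiveOn {I : Set ℝ} (F : I → I → I) (J : Set ℝ) : Prop :=
  ∀ x : I, (x : ℝ) ∈ J → F x x = x

/-- `J` is an interval with more than one point. -/
def NondegenerateInterval (J : Set ℝ) : Prop := J.OrdConnected ∧ J.Nontrivial

/-- The operation. -/
noncomputable def G (x y : ℝ) : ℝ := ⌊x⌋ + ⌊y⌋ + (Int.fract x + Int.fract y) / 2

lemma floor_G (x y : ℝ) : ⌊G x y⌋ = ⌊x⌋ + ⌊y⌋ := by
  rw [Int.floor_eq_iff]
  have h1 := Int.fract_nonneg x
  have h2 := Int.fract_nonneg y
  have h3 := Int.fract_lt_one x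
  have h4 := Int.fract_lt_one y
  unfold G
  push_cast
  constructor <;> linarith

lemma fract_G (x y : ℝ) : Int.fract (G x y) = (Int.fract x + Int.fract y) / 2 := by
  have h := floor_G x y
  rw [Int.fract, h]
  unfold G
  push_cast
  ring

lemma G_bisym (x y u v : ℝ) : G (G x y) (G u v) = G (G x u) (G y v) := by
  conv_lhs => rw [G]
  conv_rhs => rw [G]
  simp only [floor_G, fract_G]
  push_cast
  ring

lemma G_symm (x y : ℝ) : G x y = G y x := by
  unfold G
  ring

lemma G_mono {x x' : ℝ} (y : ℝ) (h : x < x') : G x y < G x' y := by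
  have h1 : ⌊x⌋ ≤ ⌊x'⌋ := Int.floor_le_floor h.le
  have e1 : x = ⌊x⌋ + Int.fract x := (Int.floor_add_fract x).symm
  have e2 : x' = ⌊x'⌋ + Int.fract x' := (Int.floor_add_fract x').symm
  have h3 := Int.fract_nonneg x'
  have h4 := Int.fract_lt_one x
  unfold G
  rcases h1.eq_or_lt with h1 | h1
  · have h5 : (⌊x⌋ : ℝ) = ⌊x'⌋ := by exact_mod_cast h1
    linarith
  · have h5 : (⌊x⌋ : ℝ) + 1 ≤ ⌊x'⌋ := by exact_mod_cast h1
    linarith

lemma G_self_iff (x : ℝ) : G x x = x ↔ x ∈ Set.Ico (0 : ℝ) 1 := by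
  have e1 : (⌊x⌋ : ℝ) + Int.fract x = x := Int.floor_add_fract x
  rw [Set.mem_Ico]
  constructor
  · intro h
    unfold G at h
    have h0 : (⌊x⌋ : ℝ) = 0 := by linarith
    have h0' : ⌊x⌋ = 0 := by exact_mod_cast h0
    rwa [Int.floor_eq_zero_iff, Set.mem_Ico] at h0'
  · intro h
    have h0 : ⌊x⌋ = 0 := Int.floor_eq_zero_iff.mpr (Set.mem_Ico.mpr h)
    have h0' : (⌊x⌋ : ℝ) = 0 := by exact_mod_cast h0
    unfold G
    linarith

/-- **The answer to Q1 is yes.** There are a nondegenerate interval `I`, a bisymmetric, symmetric,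
partially strictly increasing `F : I² → I` and a proper subinterval `J` of `I` with more than one
point such that `F` is reflexive on `J`, but `F x₀ x₀ ≠ x₀` for some `x₀ ∈ I`. (Here `I = ℝ`,
`J = [0, 1)`, and `F` is not reflexive at any point outside of `J`.) -/
theorem result : ∃ (I J : Set ℝ) (F : I → I → I),
    I = Set.univ ∧ J = Set.Ico (0 : ℝ) 1 ∧
    NondegenerateInterval I ∧ NondegenerateInterval J ∧ J ⊂ I ∧
    Bisymmetric F ∧ Symm F ∧ PartiallyStrictlyIncreasing F ∧ ReflexiveOn F J ∧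
    (∀ x : I, (x : ℝ) ∉ J → F x x ≠ x) ∧ ∃ x₀ : I, F x₀ x₀ ≠ x₀ := by
  refine ⟨Set.univ, Set.Ico (0 : ℝ) 1, fun x y => ⟨G x y, Set.mem_univ _⟩, rfl, rfl,
    ⟨Set.ordConnected_univ, Set.nontrivial_univ⟩, ⟨Set.ordConnected_Ico, ?_⟩, ?_, ?_, ?_, ?_, ?_,
    ?_, ?_⟩
  · exact ⟨0, by norm_num, 1 / 2, by norm_num, by norm_num⟩
  · rw [Set.ssubset_univ_iff]
    intro h
    have : (1 : ℝ) ∈ Set.Ico (0 : ℝ) 1 := by rw [h]; exact Set.mem_univ _
    simp at this
  · intro x y u v
    exact Subtype.ext (G_bisym x y u v)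
  · intro x y
    exact Subtype.ext (G_symm x y)
  · refine ⟨fun y x x' h => ?_, fun x y y' h => ?_⟩
    · exact G_mono y h
    · change G x y < G x y'
      rw [G_symm x y, G_symm x y']
      exact G_mono x h
  · intro x hx
    exact Subtype.ext ((G_self_iff x).mpr hx)
  · intro x hx h
    exact hx ((G_self_iff x).mp (congrArg Subtype.val h))
  · refine ⟨⟨1, Set.mem_univ _⟩, fun h => ?_⟩
    have := (G_self_iff 1).mp (congrArg Subtype.val h)
    simp at this

end Pool.Agent.Results.MP_a2bf4b_an.FloorExample
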